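import Mathlib

/-!
Ultimate matching, dual proof: Gaussian cells.  Basic definitions.
A state is a point `a : ℝ × ℝ` together with a matrix `A` (`0 < A.det`); the cell is the law of
`a + A z`, `z` standard Gaussian.
-/

set_option autoImplicit false

open MeasureTheory ProbabilityTheory

namespace Pool.UMD

/-- Standard Gaussian measure on `ℝ`. -/
noncomputable abbrev g1 : Measure ℝ := gaussianReal 0 1

/-- Standard Gaussian measure on `ℝ × ℝ`. -/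
noncomputable abbrev g2 : Measure (ℝ × ℝ) := g1.prod g1

/-- Real `2 × 2` matrices. -/
structure Mat where
  a : ℝ
  b : ℝ
  c : ℝ
  d : ℝ

namespace Mat

/-- Determinant. -/
def det (A : Mat) : ℝ := A.a * A.d - A.b * A.c

/-- `A z`. -/
def ap (A : Mat) (z : ℝ × ℝ) : ℝ × ℝ := (A.a * z.1 + A.b * z.2, A.c * z.1 + A.d * z.2)

/-- `Aᵀ p`. -/
def tr (A : Mat) (p : ℝ × ℝ) : ℝ × ℝ := (A.a * p.1 + A.c * p.2, A.b * p.1 + A.d * p.2)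

/-- `A R_e`, `R_e = I - (1/2) e eᵀ`. -/
noncomputable def con (A : Mat) (e : ℝ × ℝ) : Mat where
  a := A.a - (A.a * e.1 + A.b * e.2) / 2 * e.1
  b := A.b - (A.a * e.1 + A.b * e.2) / 2 * e.2
  c := A.c - (A.c * e.1 + A.d * e.2) / 2 * e.1
  d := A.d - (A.c * e.1 + A.d * e.2) / 2 * e.2

/-- The step direction `(√3/2) A e`. -/
noncomputable def stp (A : Mat) (e : ℝ × ℝ) : ℝ × ℝ :=
  (√3 / 2 * (A.ap e).1, √3 / 2 * (A.ap e).2)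

end Mat

/-- Scalar product. -/
def dot (x y : ℝ × ℝ) : ℝ := x.1 * y.1 + x.2 * y.2

/-- Euclidean norm. -/
noncomputable def nm (x : ℝ × ℝ) : ℝ := √(x.1 ^ 2 + x.2 ^ 2)

/-- `R_e z`. -/
noncomputable def rap (e z : ℝ × ℝ) : ℝ × ℝ :=
  (z.1 - dot e z / 2 * e.1, z.2 - dot e z / 2 * e.2)

/-- Mean of `f` over the cell `(a, A)`. -/
noncomputable def mu (f : ℝ × ℝ → ℝ) (a : ℝ × ℝ) (A : Mat) : ℝ := ∫ z, f (a + A.ap z) ∂g2

/-- First Gaussian moment of `f` over the cell `(a, A)`. -/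
noncomputable def mz (f : ℝ × ℝ → ℝ) (a : ℝ × ℝ) (A : Mat) : ℝ × ℝ :=
  (∫ z, z.1 * f (a + A.ap z) ∂g2, ∫ z, z.2 * f (a + A.ap z) ∂g2)

/-- The mean of the vector field `(G1, G2)` over the cell. -/
noncomputable def gp (G1 G2 : ℝ × ℝ → ℝ) (a : ℝ × ℝ) (A : Mat) : ℝ × ℝ := (mu G1 a A, mu G2 a A)

/-- `R(a, A)`: covariance of `W` and `G` over the cell minus the contribution of the affine part. -/
noncomputable def Rr (W G G1 G2 : ℝ × ℝ → ℝ) (a : ℝ × ℝ) (A : Mat) : ℝ :=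
  mu (fun x => W x * G x) a A - mu W a A * mu G a A - dot (mz W a A) (A.tr (gp G1 G2 a A))

/-- `W` is measurable and bounded by `M`. -/
def Bd (W : ℝ × ℝ → ℝ) (M : ℝ) : Prop := Measurable W ∧ ∀ x, |W x| ≤ M

/-- `G` is a `C¹` function with gradient `(G1, G2)`, everything bounded by `T`. -/
structure Sm (G G1 G2 : ℝ × ℝ → ℝ) (T : ℝ) : Prop where
  c0 : Continuous G
  c1 : Continuous G1
  c2 : Continuous G2
  b0 : ∀ x, |G x| ≤ T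
  b1 : ∀ x, |G1 x| ≤ T
  b2 : ∀ x, |G2 x| ≤ T
  der : ∀ (x v : ℝ × ℝ) (t : ℝ), HasDerivAt (fun s : ℝ => G (x + s • v))
    (v.1 * G1 (x + t • v) + v.2 * G2 (x + t • v)) t

/-- Periodic with period `2m` in both coordinates. -/
def Per (m : ℕ) (f : ℝ × ℝ → ℝ) : Prop :=
  ∀ x : ℝ × ℝ, f (x.1 + 2 * m, x.2) = f x ∧ f (x.1, x.2 + 2 * m) = f x

/-- The period box `[0, 2m) × [0, 2m)`. -/
def Box (m : ℕ) : Set (ℝ × ℝ) := Set.Ico (0 : ℝ) (2 * m) ×ˢ Set.Ico (0 : ℝ) (2 * m)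

/-! ### The Stein kernel and the normalised noise of a step -/

/-- Stein kernel of `u`: `∫ (u - ∫ u) r = ∫ stk u * r'`. -/
noncomputable def stk (u : ℝ → ℝ) (g : ℝ) : ℝ :=
  if 0 ≤ g then (∫ t in Set.Ioi g, (u t - ∫ s, u s ∂g1) ∂g1) / gaussianPDFReal 0 1 g
  else -((∫ t in Set.Iio g, (u t - ∫ s, u s ∂g1) ∂g1) / gaussianPDFReal 0 1 g)

/-- First noise functional of a step. -/
noncomputable def xi0 (W : ℝ × ℝ → ℝ) (a : ℝ × ℝ) (A : Mat) (e : ℝ × ℝ) (g : ℝ) : ℝ :=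
  √A.det * stk (fun t => mu W (a + t • A.stp e) (A.con e)) g

/-- Second noise functional of a step. -/
noncomputable def xi1 (W : ℝ × ℝ → ℝ) (a : ℝ × ℝ) (A : Mat) (e : ℝ × ℝ) (g : ℝ) : ℝ :=
  √A.det * (mz W (a + g • A.stp e) (A.con e)).1

/-- Third noise functional of a step. -/
noncomputable def xi2 (W : ℝ × ℝ → ℝ) (a : ℝ × ℝ) (A : Mat) (e : ℝ × ℝ) (g : ℝ) : ℝ :=
  √A.det * (mz W (a + g • A.stp e) (A.con e)).2

/-- `∑_{|l| ≤ Λ} exp (l ξ - C l²)`. -/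
noncomputable def ZZ (Λ : ℕ) (Cv ξ : ℝ) : ℝ :=
  ∑ l ∈ Finset.Icc (-(Λ : ℤ)) Λ, Real.exp (l * ξ - Cv * (l : ℝ) ^ 2)

/-- The exponential noise weight of a step. -/
noncomputable def eU (Λ : ℕ) (Cv : ℝ) (W : ℝ × ℝ → ℝ) (a : ℝ × ℝ) (A : Mat) (e : ℝ × ℝ)
    (g : ℝ) : ℝ :=
  ZZ Λ Cv (xi0 W a A e g) * ZZ Λ Cv (xi1 W a A e g) * ZZ Λ Cv (xi2 W a A e g)

/-- The partition function of the noise; `D` is the finite alphabet of directions. -/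
noncomputable def Zk (D : Finset (ℝ × ℝ)) (Λ : ℕ) (Cv : ℝ) (W : ℝ × ℝ → ℝ) :
    ℕ → ℝ × ℝ → Mat → ℝ
  | 0, _, _ => 1
  | k + 1, a, A => ∑ e ∈ D, (∫ g, eU Λ Cv W a A e g ∂g1) *
      (∫ g, eU Λ Cv W a A e g * Zk D Λ Cv W k (a + g • A.stp e) (A.con e) ∂g1)

/-! ### Shape, energies -/

/-- `T_A(p) = |Aᵀ p|² / det A`. -/
noncomputable def TA (A : Mat) (p : ℝ × ℝ) : ℝ := (nm (A.tr p)) ^ 2 / A.det

/-- The norm `N_L(p) = |(L^β₁ p₁, L^β₂ p₂)|`. -/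
noncomputable def NL (β₁ β₂ L : ℝ) (p : ℝ × ℝ) : ℝ := nm (L ^ β₁ * p.1, L ^ β₂ * p.2)

/-- `τ_L(A) = |B_L^{-1/2} A|² / det A`. -/
noncomputable def tau (β₁ β₂ L : ℝ) (A : Mat) : ℝ :=
  ((L ^ (-β₁)) ^ 2 * (A.a ^ 2 + A.b ^ 2) + (L ^ (-β₂)) ^ 2 * (A.c ^ 2 + A.d ^ 2)) / A.det

/-- The misalignment potential. -/
noncomputable def FL (β₁ β₂ L : ℝ) (A : Mat) (p : ℝ × ℝ) : ℝ :=
  (max (√(TA A p) - √(40 / L) * NL β₁ β₂ L p) 0) ^ 2 / NL β₁ β₂ L p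

/-- `u log u - u + 1` up to `exp S`, then linear with slope `S`. -/
noncomputable def hS (S u : ℝ) : ℝ :=
  if u ≤ Real.exp S then u * Real.log u - u + 1 else S * u - Real.exp S + 1

/-- The radial energy function. -/
noncomputable def rho (L t : ℝ) : ℝ := hS (2 * L + 2) (1 + t)

/-- `θ_L(v) = 1 + N_{max (L, 4 log (1+|v|))} (v)`. -/
noncomputable def th (β₁ β₂ L : ℝ) (v : ℝ × ℝ) : ℝ :=
  1 + NL β₁ β₂ (max L (4 * Real.log (1 + nm v))) v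

/-- `φ_L(a, A)`: mean of `θ_L(∇G)` over the cell. -/
noncomputable def ph (β₁ β₂ : ℝ) (G1 G2 : ℝ × ℝ → ℝ) (L : ℝ) (a : ℝ × ℝ) (A : Mat) : ℝ :=
  mu (fun x => th β₁ β₂ L (G1 x, G2 x)) a A

/-- The bound of the main induction, without the logarithm of the partition function. -/
noncomputable def Bnd (β₁ β₂ Ca Cb Ce K : ℝ) (D : Finset (ℝ × ℝ)) (Λ : ℕ) (Cv : ℝ)
    (W G1 G2 : ℝ × ℝ → ℝ) (k : ℕ) (L : ℝ) (a : ℝ × ℝ) (A : Mat) : ℝ :=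
  √K * (Ca * ((1 + 1 / L) * ph β₁ β₂ G1 G2 L a A) - Cb * NL β₁ β₂ L (gp G1 G2 a A)
      - 1920 / L * rho L (NL β₁ β₂ L (gp G1 G2 a A)) + 40 * FL β₁ β₂ L A (gp G1 G2 a A))
    + Ce / √K * ((1 + 1 / L) * ph β₁ β₂ G1 G2 L a A) *
      (3 * K + 6 * k - Real.log ((1 + 1 / L) * ph β₁ β₂ G1 G2 L a A)
        + Real.log (Zk D Λ Cv W k a A))

/-- `D` is a finite set of unit vectors which is fine enough. -/
def Net (D : Finset (ℝ × ℝ)) : Prop :=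
  (∀ e ∈ D, e.1 ^ 2 + e.2 ^ 2 = 1) ∧
    ∀ u : ℝ × ℝ, u.1 ^ 2 + u.2 ^ 2 = 1 → ∃ e ∈ D, 1 - 1 / 1000 ≤ (dot u e) ^ 2

end Pool.UMD
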