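import Pool.Agent.H37.UMD.Trunc

/-!
Final assembly, from the flow statement.
-/

set_option autoImplicit false

open MeasureTheory Finset

namespace Pool.UMD

theorem fin_matchHP {α₁ α₂ : ℝ} (h₁ : 0 < α₁) (h₂ : 0 < α₂) (h : 1 / α₁ + 1 / α₂ = 1 / 2)
    (hflow : ∀ p : ℕ, ∃ c₁ : ℝ, ∀ c₀ : ℝ, c₁ ≤ c₀ →
      Pool.UMC.S_FLOW α₁ α₂ c₀ (fun n => 1 / (n : ℝ) ^ p)) : MatchHP α₁ α₂ := by
  have hα₁ : 1 ≤ α₁ := by
    have : 1 / α₁ ≤ 1 / 2 := by
      have : 0 < 1 / α₂ := by positivity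
      linarith
    rw [div_le_div_iff₀ h₁ (by norm_num)] at this
    linarith
  have hα₂ : 1 ≤ α₂ := by
    have : 1 / α₂ ≤ 1 / 2 := by
      have : 0 < 1 / α₁ := by positivity
      linarith
    rw [div_le_div_iff₀ h₂ (by norm_num)] at this
    linarith
  intro p
  obtain ⟨c₁, hc₁⟩ := hflow (p + 1)
  obtain ⟨C, hC, hP⟩ := Pool.UMC.matching_of_flow hα₁ hα₂ (p := p + 1)
    (c₀ := max c₁ (64 * (((p + 1 : ℕ) : ℝ) + 3))) (le_max_right _ _) (hc₁ _ (le_max_left _ _))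
  refine ⟨C, hC, fun n hn => (hP n hn).trans ?_⟩
  have hn' : (2 : ℝ) ≤ n := by exact_mod_cast hn
  have hn0 : (0 : ℝ) < n := by linarith
  rw [← ENNReal.ofReal_add (by positivity) (by positivity)]
  refine ENNReal.ofReal_le_ofReal ?_
  rw [pow_succ, ← two_mul, mul_one_div, div_le_div_iff₀ (by positivity) (by positivity)]
  have : (0 : ℝ) ≤ (n : ℝ) ^ p := by positivity
  nlinarith

end Pool.UMD
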