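import Pool.Agent.H14.UMD.NLP
import Pool.Agent.H14.UMD.ONE
import Pool.Agent.H15.UMD.KER
import Pool.Agent.H18.UMD.CTR
import Pool.Agent.H18.UMD.SWI
import Pool.Agent.H22.UMD.LIP
import Pool.Agent.H23.UMD.REF
import Pool.Agent.H23.UMD.RFZ
import Pool.Agent.H23.UMD.ROT
import Pool.Agent.H23.UMD.STE
import Pool.Agent.H23.UMD.STP
import Pool.Agent.H24.UMD.CNT
import Pool.Agent.H24.UMD.DET
import Pool.Agent.H24.UMD.JEN
import Pool.Agent.H24.UMD.LIN
import Pool.Agent.H27.UMD.AMG
import Pool.Agent.H27.UMD.THP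
import Pool.Agent.H31.UMD.THT
import Pool.Agent.H33.UMD.IND
import Pool.Agent.H33.UMD.MZB
import Pool.Agent.H33.UMD.RHO
import Pool.Agent.H33.UMD.TER
import Pool.Agent.H34.UMD.DTM
import Pool.Agent.H34.UMD.DUA
import Pool.Agent.H34.UMD.GIB
import Pool.Agent.H40.UMD.DGR
import Pool.Agent.H46.UMD.DER
import Pool.Agent.H46.UMD.DRI
import Pool.Agent.H47.UMD.GSM
import Pool.Agent.H49.UMD.MMU
import Pool.Agent.H61.UMD.CST
import Pool.Agent.H61.UMD.DRF
import Pool.Agent.H62.UMD.NET
import Pool.Agent.H62.UMD.PSI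
import Pool.Agent.H65.UMD.FOL
import Pool.Agent.H65.UMD.MAS
import Pool.Agent.H83.UMD.MEU
import Pool.Agent.H83.UMD.MRK
import Pool.Agent.H83.UMD.MST
import Pool.Agent.H83.UMD.SUP
import Pool.Agent.H85.UMD.GDF
import Pool.Agent.H85.UMD.GTH
import Pool.Agent.H86.UMD.EZK
import Pool.Agent.H86.UMD.ROO
import Pool.Agent.H87.UMD.MZK
import Pool.Agent.H95.UMD.EXP
import Pool.Agent.H95.UMD.GDE
import Pool.Agent.H37.UMD.Fin
import Pool.Agent.H85.UMC.FLW

/-!
Ultimate matching, dual proof: composition of the modules.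
-/

set_option autoImplicit false

namespace Pool.UMD

theorem Main_AMG : SAmg := sAmg 

theorem Main_CNT : SCnt := sCnt 

theorem Main_CST : SCst := sCst 

theorem Main_CTR : SCtr := sCtr 

theorem Main_DER : SDer := sDer 

theorem Main_DET : SDet := sDet 

theorem Main_DRF : SDrf := sDrf 

theorem Main_EXP : SExp := sExp 

theorem Main_FOL : SFol := sFol 

theorem Main_GDF : SGdf := sGdf 

theorem Main_GIB : SGib := sGib 

theorem Main_GSM : SGsm := sGsm 

theorem Main_JEN : SJen := sJen 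

theorem Main_LIN : SLin := sLin Main_FOL

theorem Main_LIP : SLip := sLip 

theorem Main_MAS : SMas := sMas 

theorem Main_MMU : SMmu := sMmu 

theorem Main_MST : SMst := sMst 

theorem Main_MZB : SMzb := sMzb Main_MAS Main_MMU Main_FOL

theorem Main_NET : SNet := sNet 

theorem Main_NLP : SNlp := sNlp 

theorem Main_PSI : SPsi := sPsi 

theorem Main_REF : SRef := sRef 

theorem Main_RFZ : SRfz := sRfz 

theorem Main_RHO : SRho := sRho 

theorem Main_ROO : SRoo := sRoo Main_EXP Main_LIN Main_MZB Main_LIP Main_FOL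

theorem Main_ROT : SRot := sRot 

theorem Main_STE : SSte := sSte 

theorem Main_STP : SStp := sStp Main_REF Main_RFZ Main_MMU Main_MST Main_DER Main_CNT Main_STE

theorem Main_SUP : SSup := sSup Main_EXP

theorem Main_TER : STer := sTer Main_STE Main_MST Main_DER Main_CNT

theorem Main_THP : SThp := sThp Main_NLP

theorem Main_THT : STht := sTht 

theorem Main_DRI : SDri := sDri Main_DRF Main_NLP Main_JEN

theorem Main_GTH : SGth := sGth Main_THT Main_PSI

theorem Main_KER : SKer := sKer Main_MZB Main_MAS Main_REF Main_DET Main_MST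

theorem Main_MEU : SMeu := sMeu Main_MMU Main_MST

theorem Main_MZK : SMzk := mzk Main_MEU

theorem Main_ONE : SOne := sOne Main_DET Main_CTR Main_STP Main_CST Main_DRI Main_GIB Main_REF Main_MMU Main_MST Main_MEU Main_MZK Main_NLP Main_JEN Main_RHO Main_THP Main_CNT

theorem Main_SWI : SSwi := sSwi Main_NLP Main_RHO Main_THP

theorem Main_EZK : SEzk := sEzk Main_KER Main_EXP Main_MMU Main_MEU Main_MZK Main_DET Main_FOL

theorem Main_IND : SInd := sInd Main_ONE Main_SWI Main_TER Main_NLP Main_RHO Main_THP Main_MZK Main_JEN Main_MMU Main_DET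

theorem Main_MRK : SMrk := sMrk Main_EZK Main_MZK Main_FOL

theorem Main_DTM : SDtm := sDtm Main_IND Main_AMG Main_MZK Main_MMU Main_THP Main_NLP Main_JEN

theorem Main_GDE : SGde := sGde Main_SUP Main_ROO Main_MRK

theorem Main_DGR : SDgr := sDgr Main_DTM Main_GSM Main_GDF Main_GTH Main_PSI Main_FOL

theorem Main_DUA : SDua := sDua Main_GDE Main_DGR Main_NET

theorem main_matchHP {α₁ α₂ : ℝ} (h₁ : 0 < α₁) (h₂ : 0 < α₂)
    (h : 1 / α₁ + 1 / α₂ = 1 / 2) : MatchHP α₁ α₂ :=
  fun p => ultimate Main_DUA h₁ h₂ h p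

end Pool.UMD
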