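import Pool.Agent.H85.UMC.Final

/-!
Normalisation of the constant on the right hand side of the matching bound.
-/

set_option autoImplicit false

open MeasureTheory Finset

namespace Pool.UMD

open Pool.UMC (unifSq cost)

theorem Norm_power {n : ℕ} (hn : 0 < n) (y : Fin n → ℝ) (hy : ∀ i, 0 < y i) {t C : ℝ} (ht0 : 0 ≤ t)
    (ht1 : t ≤ 1) (hC : ∑ i, y i ≤ C * n) : ∑ i, (y i) ^ t ≤ n * C ^ t := by
  have hn' : (0 : ℝ) < n := by exact_mod_cast hn
  have h1 := (Real.concaveOn_rpow ht0 ht1).le_map_sum (t := (univ : Finset (Fin n)))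
    (w := fun _ => (1 / n : ℝ)) (p := y) (fun i _ => by positivity)
    (by simp [hn.ne']) (fun i _ => (hy i).le)
  simp only [smul_eq_mul] at h1
  rw [← Finset.mul_sum, ← Finset.mul_sum] at h1
  have hs : 0 ≤ ∑ i, y i := Finset.sum_nonneg fun i _ => (hy i).le
  have h2 : (1 / (n : ℝ) * ∑ i, y i) ^ t ≤ C ^ t := by
    refine Real.rpow_le_rpow (by positivity) ?_ ht0
    rw [one_div, inv_mul_le_iff₀ hn']
    linarith
  have h3 := h1.trans h2
  rw [one_div, inv_mul_le_iff₀ hn'] at h3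
  exact h3

theorem Norm_form {α₁ α₂ C ε : ℝ} (hα₁ : 0 < α₁) (hα₂ : 0 < α₂) (hC : 0 < C) (hε : 0 < ε) :
    ∃ C' : ℝ, 0 < C' ∧ ∀ n : ℕ, 2 ≤ n → ∀ (x y : Fin n → ℝ × ℝ) (σ : Equiv.Perm (Fin n)),
      cost α₁ α₂ C n x y σ ≤ C * n → cost α₁ α₂ C' n x y σ ≤ (1 + ε) * n := by
  -- choose the dilation
  have key : ∀ α : ℝ, 0 < α → ∃ l : ℝ, 1 ≤ l ∧ ∀ l', l ≤ l' → C ^ (l' ^ (-α)) ≤ 1 + ε := by
    intro α hα
    have hlog : 0 < Real.log (1 + ε) := Real.log_pos (by linarith)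
    set b : ℝ := Real.log C / Real.log (1 + ε)
    refine ⟨max 1 ((max b 0) ^ (1 / α)), le_max_left _ _, ?_⟩
    intro l' hl'
    have hl1 : 1 ≤ l' := (le_max_left _ _).trans hl'
    have hl0 : 0 < l' := by linarith
    have hl2 : (max b 0) ^ (1 / α) ≤ l' := (le_max_right _ _).trans hl'
    have hb : max b 0 ≤ l' ^ α := by
      have := Real.rpow_le_rpow (by positivity) hl2 hα.le
      rwa [← Real.rpow_mul (le_max_right _ _), one_div, inv_mul_cancel₀ hα.ne', Real.rpow_one] at this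
    have hb' : b ≤ l' ^ α := (le_max_left _ _).trans hb
    rw [Real.rpow_neg hl0.le]
    have hpos : 0 < l' ^ α := Real.rpow_pos_of_pos hl0 _
    have h1 : Real.log C * (l' ^ α)⁻¹ ≤ Real.log (1 + ε) := by
      rw [← div_eq_mul_inv, div_le_iff₀ hpos]
      rw [div_le_iff₀ hlog] at hb'
      linarith
    calc C ^ (l' ^ α)⁻¹ = Real.exp (Real.log C * (l' ^ α)⁻¹) := Real.rpow_def_of_pos hC _
      _ ≤ Real.exp (Real.log (1 + ε)) := Real.exp_le_exp.2 h1
      _ = 1 + ε := Real.exp_log (by linarith)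
  obtain ⟨l₁, hl₁, h₁⟩ := key α₁ hα₁
  obtain ⟨l₂, hl₂, h₂⟩ := key α₂ hα₂
  set l : ℝ := max l₁ l₂
  have hl1 : 1 ≤ l := hl₁.trans (le_max_left _ _)
  have hl0 : 0 < l := by linarith
  refine ⟨l * C, by positivity, ?_⟩
  intro n hn x y σ hc
  have hn0 : 0 < n := by omega
  have hn' : (0 : ℝ) < n := by exact_mod_cast hn0
  have term : ∀ (α : ℝ), 0 < α → ∀ d : ℝ, 0 ≤ d →
      Real.exp ((1 / (l * C) * √((n : ℝ) / Real.log n) * d) ^ α) =
        (Real.exp ((1 / C * √((n : ℝ) / Real.log n) * d) ^ α)) ^ (l ^ (-α)) := by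
    intro α hα d hd
    rw [← Real.exp_mul]
    congr 1
    have : 1 / (l * C) * √((n : ℝ) / Real.log n) * d =
        l⁻¹ * (1 / C * √((n : ℝ) / Real.log n) * d) := by
      field_simp
    rw [this, Real.mul_rpow (by positivity) (by positivity), Real.rpow_neg hl0.le,
      Real.inv_rpow hl0.le]
    ring
  unfold cost at hc ⊢
  have ht : ∀ α : ℝ, 0 < α → 0 ≤ l ^ (-α) ∧ l ^ (-α) ≤ 1 := by
    intro α hα
    refine ⟨by positivity, ?_⟩
    exact Real.rpow_le_one_of_one_le_of_nonpos hl1 (by linarith)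
  refine max_le ?_ ?_
  · rw [Finset.sum_congr rfl fun i _ => term α₁ hα₁ _ (abs_nonneg _)]
    refine (Norm_power hn0 _ (fun i => Real.exp_pos _) (ht α₁ hα₁).1 (ht α₁ hα₁).2
      ((le_max_left _ _).trans hc)).trans ?_
    rw [mul_comm (n : ℝ)]
    exact mul_le_mul_of_nonneg_right (h₁ l (le_max_left _ _)) hn'.le
  · rw [Finset.sum_congr rfl fun i _ => term α₂ hα₂ _ (abs_nonneg _)]
    refine (Norm_power hn0 _ (fun i => Real.exp_pos _) (ht α₂ hα₂).1 (ht α₂ hα₂).2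
      ((le_max_right _ _).trans hc)).trans ?_
    rw [mul_comm (n : ℝ)]
    exact mul_le_mul_of_nonneg_right (h₂ l (le_max_right _ _)) hn'.le

end Pool.UMD
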