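import Pool.Agent.H37.UMD.Defs

/-!
Ultimate matching, dual proof: the statements of the modules of the deterministic part.
-/

set_option autoImplicit false

open MeasureTheory ProbabilityTheory

namespace Pool.UMD

/-! ### Gaussian calculus -/

/-- ROT: rotation invariance of the standard Gaussian. -/
def SRot : Prop := ∀ c s : ℝ, c ^ 2 + s ^ 2 = 1 →
  Measure.map (fun z : ℝ × ℝ => (c * z.1 + s * z.2, -s * z.1 + c * z.2)) g2 = g2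

/-- REF: a cell is a Gaussian mixture of its children, for every direction `e`. -/
def SRef : Prop := ∀ (f : ℝ × ℝ → ℝ) (M : ℝ), Bd f M → ∀ (a : ℝ × ℝ) (A : Mat) (e : ℝ × ℝ),
  e.1 ^ 2 + e.2 ^ 2 = 1 →
  mu f a A = ∫ g, mu f (a + g • A.stp e) (A.con e) ∂g1

/-- RFZ: means of the first moments of the children. -/
def SRfz : Prop := ∀ (f : ℝ × ℝ → ℝ) (M : ℝ), Bd f M → ∀ (a : ℝ × ℝ) (A : Mat) (e : ℝ × ℝ),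
  e.1 ^ 2 + e.2 ^ 2 = 1 →
  (∫ g, (mz f (a + g • A.stp e) (A.con e)).1 ∂g1 = (rap e (mz f a A)).1) ∧
  (∫ g, (mz f (a + g • A.stp e) (A.con e)).2 ∂g1 = (rap e (mz f a A)).2) ∧
  ∫ g, g * mu f (a + g • A.stp e) (A.con e) ∂g1 = √3 / 2 * dot e (mz f a A)

/-- MMU: measurability and boundedness of `mu` and `mz`. -/
def SMmu : Prop := ∀ (f : ℝ × ℝ → ℝ) (M : ℝ), Bd f M → ∀ A : Mat,
  Bd (fun a => mu f a A) M ∧ Bd (fun a => (mz f a A).1) M ∧ Bd (fun a => (mz f a A).2) M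

/-- MST: the Stein kernel, jointly measurable and bounded. -/
def SMst : Prop := ∀ (u : ℝ × ℝ → ℝ → ℝ) (M : ℝ), Measurable (Function.uncurry u) →
  (∀ a t, |u a t| ≤ M) →
  Measurable (fun q : (ℝ × ℝ) × ℝ => stk (u q.1) q.2) ∧ ∀ a g, |stk (u a) g| ≤ 3 * M

/-- MEU: measurability and bounds of the noise weight of a step. -/
def SMeu : Prop := ∀ (W : ℝ × ℝ → ℝ) (M : ℝ), Bd W M → ∀ (A : Mat) (e : ℝ × ℝ) (Λ : ℕ) (Cv : ℝ),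
  0 ≤ Cv → Measurable (fun q : (ℝ × ℝ) × ℝ => eU Λ Cv W q.1 A e q.2) ∧
    ∃ C : ℝ, ∀ a g, 1 ≤ eU Λ Cv W a A e g ∧ eU Λ Cv W a A e g ≤ C

/-- MZK: measurability and bounds of the partition function. -/
def SMzk : Prop := ∀ (W : ℝ × ℝ → ℝ) (M : ℝ), Bd W M → ∀ (D : Finset (ℝ × ℝ)), D.Nonempty →
  ∀ (Λ : ℕ) (Cv : ℝ), 0 ≤ Cv → ∀ (k : ℕ) (A : Mat),
    Measurable (fun a => Zk D Λ Cv W k a A) ∧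
    ∃ C : ℝ, ∀ a, 1 ≤ Zk D Λ Cv W k a A ∧ Zk D Λ Cv W k a A ≤ C

/-- DER: derivative of a cell mean along a line. -/
def SDer : Prop := ∀ (G G1 G2 : ℝ × ℝ → ℝ) (T : ℝ), Sm G G1 G2 T →
  ∀ (a v : ℝ × ℝ) (A : Mat) (g : ℝ),
    HasDerivAt (fun s : ℝ => mu G (a + s • v) A)
      (v.1 * mu G1 (a + g • v) A + v.2 * mu G2 (a + g • v) A) g

/-- CNT: the cell mean of a bounded continuous function is continuous in the centre. -/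
def SCnt : Prop := ∀ (f : ℝ × ℝ → ℝ) (M : ℝ), Continuous f → (∀ x, |f x| ≤ M) → ∀ A : Mat,
  Continuous (fun a => mu f a A)

/-- STE: Stein's identity for the kernel `stk`. -/
def SSte : Prop := ∀ (u r r' : ℝ → ℝ) (M : ℝ), Measurable u → (∀ g, |u g| ≤ M) →
  (∀ g, HasDerivAt r (r' g) g) → Continuous r' → (∀ g, |r' g| ≤ M) →
  ∫ g, (u g - ∫ s, u s ∂g1) * r g ∂g1 = ∫ g, stk u g * r' g ∂g1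

/-- STP: the step inequality for `R`. -/
def SStp : Prop := ∀ (W G G1 G2 : ℝ × ℝ → ℝ) (M T : ℝ), Bd W M → Sm G G1 G2 T →
  ∀ (a : ℝ × ℝ) (A : Mat) (e : ℝ × ℝ), 0 < A.det → e.1 ^ 2 + e.2 ^ 2 = 1 →
  |Rr W G G1 G2 a A| ≤ ∫ g, |Rr W G G1 G2 (a + g • A.stp e) (A.con e)| ∂g1 +
    ∫ g, √(TA A (gp G1 G2 (a + g • A.stp e) (A.con e) - gp G1 G2 a A)) *
      (|xi0 W a A e g| + |xi1 W a A e g| + |xi2 W a A e g|) ∂g1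

/-- TER: the terminal bound. -/
def STer : Prop := ∀ (W G G1 G2 : ℝ × ℝ → ℝ) (M T : ℝ), Bd W M → Sm G G1 G2 T →
  ∀ (a : ℝ × ℝ) (A : Mat),
  |Rr W G G1 G2 a A| ≤ 30 * M * mu (fun x => nm (A.tr (G1 x, G2 x))) a A

/-! ### Linear algebra and convexity in the plane -/

/-- NET: a fine finite net of directions exists. -/
def SNet : Prop := ∃ D : Finset (ℝ × ℝ), D.Nonempty ∧ Net D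

/-- CTR: the control lemma. -/
def SCtr : Prop := ∀ β₁ β₂ : ℝ, 0 < β₁ → 0 < β₂ → β₁ + β₂ = 1 / 2 →
  ∀ D : Finset (ℝ × ℝ), Net D → ∀ (L : ℝ) (A : Mat) (p : ℝ × ℝ), 16 ≤ L → 0 < A.det →
  tau β₁ β₂ L A ≤ 6 → ∃ e ∈ D, tau β₁ β₂ L (A.con e) ≤ 6 ∧
    (TA A p ≤ 20 / L * NL β₁ β₂ L p ^ 2 → TA (A.con e) p ≤ 2 * TA A p) ∧
    (20 / L * NL β₁ β₂ L p ^ 2 < TA A p → TA (A.con e) p ≤ 3 / 5 * TA A p)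

/-- DET: the determinant of the child. -/
def SDet : Prop := ∀ (A : Mat) (e : ℝ × ℝ), e.1 ^ 2 + e.2 ^ 2 = 1 →
  (A.con e).det = A.det / 2 ∧ ∀ z : ℝ × ℝ, ∃ z' : ℝ × ℝ, nm z' ≤ nm z ∧ (A.con e).ap z = A.ap z'

/-- DRF: the drift lemma. -/
def SDrf : Prop := ∀ (M : Mat) (c0 : ℝ) (x : ℝ × ℝ), 0 ≤ c0 → x ≠ 0 → ∃ l : ℝ × ℝ,
  dot l x = (max (nm (M.tr x) - c0 * nm x) 0) ^ 2 / nm x ∧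
  ∀ y : ℝ × ℝ, (max (nm (M.tr y) - c0 * nm y) 0) ^ 2 / nm y ≤
    dot l y + 6 * (M.a ^ 2 + M.b ^ 2 + M.c ^ 2 + M.d ^ 2) * (nm y - dot x y / nm x)

/-- NLP: properties of the norms `N_L`. -/
def SNlp : Prop := ∀ β₁ β₂ : ℝ, 0 < β₁ → 0 < β₂ → β₁ + β₂ = 1 / 2 →
  (∀ L p, 1 ≤ L → nm p ≤ NL β₁ β₂ L p ∧ NL β₁ β₂ L p ≤ √L * nm p) ∧
  (∀ L p, 1 ≤ L → NL β₁ β₂ (2 * L) p ≤ √2 * NL β₁ β₂ L p) ∧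
  (∀ L p c, 1 ≤ L → 0 ≤ c → c ≤ 2 ^ β₁ → c ≤ 2 ^ β₂ →
    c * NL β₁ β₂ L p ≤ NL β₁ β₂ (2 * L) p) ∧
  (∀ L L' p, 1 ≤ L → L ≤ L' → NL β₁ β₂ L p ≤ NL β₁ β₂ L' p) ∧
  (∀ L p q, NL β₁ β₂ L (p + q) ≤ NL β₁ β₂ L p + NL β₁ β₂ L q) ∧
  (∀ L (A : Mat) p, 1 ≤ L → 0 < A.det →
    TA A p ≤ tau β₁ β₂ L A * NL β₁ β₂ L p ^ 2) ∧
  (∀ L (A : Mat), 1 ≤ L → 0 < A.det → tau β₁ β₂ (2 * L) A ≤ tau β₁ β₂ L A)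

/-- JEN: the norm of a mean is at most the mean of the norms. -/
def SJen : Prop := ∀ (β₁ β₂ L : ℝ) {X : Type} [MeasurableSpace X] (ν : Measure X)
  [IsProbabilityMeasure ν] (q : X → ℝ × ℝ) (B : ℝ), Measurable q →
  (∀ x, |(q x).1| ≤ B ∧ |(q x).2| ≤ B) →
  NL β₁ β₂ L (∫ x, (q x).1 ∂ν, ∫ x, (q x).2 ∂ν) ≤ ∫ x, NL β₁ β₂ L (q x) ∂ν

/-- RHO: properties of the radial energy function. -/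
def SRho : Prop := ∀ L : ℝ, 1 ≤ L →
  (∀ t, 0 ≤ t → 0 ≤ rho L t ∧ rho L t ≤ (2 * L + 2) * t) ∧
  (∀ s t, 0 ≤ s → s ≤ t → rho L s ≤ rho L t) ∧
  Measurable (rho L) ∧
  (∀ s t, 0 ≤ s → 0 ≤ t → 1 + s ≤ Real.exp (2 * L + 1) →
    (t - s) ^ 2 / (3 * (1 + max s t)) ≤ rho L t - rho L s - Real.log (1 + s) * (t - s))

/-- THP: properties of `θ_L`. -/
def SThp : Prop := ∀ β₁ β₂ : ℝ, 0 < β₁ → 0 < β₂ → β₁ + β₂ = 1 / 2 →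
  (∀ L, 1 ≤ L → Continuous (fun v : ℝ × ℝ => th β₁ β₂ L v)) ∧
  (∀ L v, 1 ≤ L → 1 + NL β₁ β₂ L v ≤ th β₁ β₂ L v) ∧
  (∀ L v, 16 ≤ L → th β₁ β₂ (2 * L) v ≤ th β₁ β₂ L v + √(2 * L) * Real.exp (L / 2)) ∧
  (∀ L v, 1 ≤ L → th β₁ β₂ L v ≤ 1 + √(max L (4 * Real.log (1 + nm v))) * nm v)

/-! ### One step -/

/-- CST: the cost lemma. -/
def SCst : Prop := ∀ β₁ β₂ : ℝ, 0 < β₁ → 0 < β₂ → β₁ + β₂ = 1 / 2 → ∀ L : ℝ, 16 ≤ L →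
  ∀ A : Mat, 0 < A.det → tau β₁ β₂ L A ≤ 6 →
  ∀ (p : ℝ × ℝ) (q : ℝ → ℝ × ℝ) (φ : ℝ) (f : ℝ → ℝ) (B : ℝ), Measurable q → Measurable f →
  (∀ g, |(q g).1| ≤ B ∧ |(q g).2| ≤ B ∧ f g ≤ B) →
  ∫ g, (q g).1 ∂g1 = p.1 → ∫ g, (q g).2 ∂g1 = p.2 →
  1 + NL β₁ β₂ L p ≤ φ → (∀ g, 1 + NL β₁ β₂ L (q g) ≤ f g) →
  1 + NL β₁ β₂ L p ≤ Real.exp (2 * L + 1) →
  ∫ g, TA A (q g - p) / (φ + f g) ∂g1 ≤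
    120 * (∫ g, NL β₁ β₂ L (q g) ∂g1 - NL β₁ β₂ L p)
    + 1920 / L * (∫ g, rho L (NL β₁ β₂ L (q g)) ∂g1 - rho L (NL β₁ β₂ L p))
    + (if 160 / L * NL β₁ β₂ L p ^ 2 < TA A p then 16 * FL β₁ β₂ L A p else 0)

/-- DRI: the integrated drift lemma. -/
def SDri : Prop := ∀ β₁ β₂ : ℝ, 0 < β₁ → 0 < β₂ → β₁ + β₂ = 1 / 2 → ∀ L : ℝ, 16 ≤ L →
  ∀ A : Mat, 0 < A.det → tau β₁ β₂ L A ≤ 6 →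
  ∀ (p : ℝ × ℝ) (q : ℝ → ℝ × ℝ) (B : ℝ), Measurable q →
  (∀ g, |(q g).1| ≤ B ∧ |(q g).2| ≤ B) →
  ∫ g, (q g).1 ∂g1 = p.1 → ∫ g, (q g).2 ∂g1 = p.2 →
  ∫ g, FL β₁ β₂ L A (q g) ∂g1 ≤
    FL β₁ β₂ L A p + 36 * (∫ g, NL β₁ β₂ L (q g) ∂g1 - NL β₁ β₂ L p)

/-- AMG: the arithmetic-geometric step with the noise weight. -/
def SAmg : Prop := ∀ Cv c : ℝ, 1 ≤ Cv → 0 < c → ∃ Ce : ℝ, 0 < Ce ∧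
  ∀ (K : ℝ) (Λ : ℕ), 1 ≤ K → c * √K ≤ Λ → ∀ t h ξ : ℝ, 0 ≤ t → 0 < h → t ≤ 3 * h →
    t * |ξ| ≤ √K * t ^ 2 / (3 * h) + Ce / √K * h * (1 + Real.log (ZZ Λ Cv ξ))

/-- GIB: the Gibbs variational inequality. -/
def SGib : Prop := ∀ (f X : ℝ → ℝ) (B : ℝ), Measurable f → Measurable X →
  (∀ g, 1 ≤ f g ∧ f g ≤ B) → (∀ g, |X g| ≤ B) →
  ∫ g, f g * (X g - Real.log (f g)) ∂g1 ≤
    (∫ g, f g ∂g1) * (Real.log (∫ g, Real.exp (X g) ∂g1) - Real.log (∫ g, f g ∂g1))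

/-- The standing assumptions on the constants of the induction. -/
structure Cns (β₁ β₂ Ca Cb Ce K : ℝ) (D : Finset (ℝ × ℝ)) (Λ : ℕ) (Cv : ℝ) : Prop where
  p1 : 0 < β₁
  p2 : 0 < β₂
  ps : β₁ + β₂ = 1 / 2
  hD : D.Nonempty
  net : Net D
  cv : 1 ≤ Cv
  k : 10 ≤ K
  cb : 1560 ≤ Cb
  cb1 : 8020 ≤ Cb * (2 ^ β₁ - 1)
  cb2 : 8020 ≤ Cb * (2 ^ β₂ - 1)
  ca : Cb + 5000 ≤ Ca
  ce : 0 < Ce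
  amg : ∀ t h ξ : ℝ, 0 ≤ t → 0 < h → t ≤ 3 * h →
    t * |ξ| ≤ √K * t ^ 2 / (3 * h) + Ce / √K * h * (1 + Real.log (ZZ Λ Cv ξ))

/-- SWI: changing the level from `L` to `2L`. -/
def SSwi : Prop := ∀ (β₁ β₂ Ca Cb Ce K : ℝ) (D : Finset (ℝ × ℝ)) (Λ : ℕ) (Cv : ℝ),
  Cns β₁ β₂ Ca Cb Ce K D Λ Cv → ∀ (W G1 G2 : ℝ × ℝ → ℝ) (T : ℝ), Bd G1 T → Bd G2 T →
  ∀ (k : ℕ) (L : ℝ) (a : ℝ × ℝ) (A : Mat), 16 ≤ L → 0 < A.det → tau β₁ β₂ L A ≤ 6 →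
  1 ≤ Zk D Λ Cv W k a A →
  Real.exp L < mu (fun x => 1 + nm (G1 x, G2 x)) a A →
  Real.log ((1 + 1 / L) * ph β₁ β₂ G1 G2 L a A) ≤ 3 * K - 1 →
  Bnd β₁ β₂ Ca Cb Ce K D Λ Cv W G1 G2 k (2 * L) a A ≤
    Bnd β₁ β₂ Ca Cb Ce K D Λ Cv W G1 G2 k L a A

/-- ONE: the one step inequality. -/
def SOne : Prop := ∀ (β₁ β₂ Ca Cb Ce K : ℝ) (D : Finset (ℝ × ℝ)) (Λ : ℕ) (Cv : ℝ),
  Cns β₁ β₂ Ca Cb Ce K D Λ Cv → ∀ (W G G1 G2 : ℝ × ℝ → ℝ) (M T : ℝ), Bd W M → Sm G G1 G2 T →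
  ∀ (k : ℕ) (L : ℝ) (a : ℝ × ℝ) (A : Mat), 16 ≤ L → 0 < A.det → tau β₁ β₂ L A ≤ 6 →
  mu (fun x => 1 + nm (G1 x, G2 x)) a A ≤ Real.exp L →
  (∀ e ∈ D, tau β₁ β₂ L (A.con e) ≤ 6 → ∀ g : ℝ,
    |Rr W G G1 G2 (a + g • A.stp e) (A.con e)| ≤
      Bnd β₁ β₂ Ca Cb Ce K D Λ Cv W G1 G2 k L (a + g • A.stp e) (A.con e)) →
  |Rr W G G1 G2 a A| ≤ Bnd β₁ β₂ Ca Cb Ce K D Λ Cv W G1 G2 (k + 1) L a A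

/-- IND: the main induction. -/
def SInd : Prop := ∀ (β₁ β₂ Ca Cb Ce K : ℝ) (D : Finset (ℝ × ℝ)) (Λ : ℕ) (Cv : ℝ),
  Cns β₁ β₂ Ca Cb Ce K D Λ Cv → ∀ (W G G1 G2 : ℝ × ℝ → ℝ) (T : ℝ), Bd W √K → Sm G G1 G2 T →
  T ≤ Real.exp K → ∀ (k : ℕ) (a : ℝ × ℝ) (A : Mat), A.det = 2 ^ k → tau β₁ β₂ 16 A ≤ 6 →
  |Rr W G G1 G2 a A| ≤ Bnd β₁ β₂ Ca Cb Ce K D Λ Cv W G1 G2 k 16 a A

/-- The root matrix. -/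
noncomputable def A0 (k : ℕ) : Mat := ⟨√(2 ^ k), 0, 0, √(2 ^ k)⟩

/-- DTM: the deterministic theorem. -/
def SDtm : Prop := ∀ β₁ β₂ : ℝ, 0 < β₁ → 0 < β₂ → β₁ + β₂ = 1 / 2 →
  ∀ D : Finset (ℝ × ℝ), D.Nonempty → Net D → ∀ Cv c Ch Cr : ℝ, 1 ≤ Cv → 0 < c →
  ∃ C : ℝ, 0 < C ∧ ∀ (m : ℕ) (K : ℝ) (Λ k : ℕ), 1 ≤ m → 10 ≤ K → c * √K ≤ Λ →
  (m : ℝ) ^ 2 ≤ 2 ^ k → (2 : ℝ) ^ k ≤ 2 * m ^ 2 → (k : ℝ) ≤ K →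
  ∀ W : ℝ × ℝ → ℝ, Bd W √K → Per m W → ∫ x in Box m, W x = 0 →
  (∀ a, |mu W a (A0 k)| ≤ Cr * √K / m ∧ |(mz W a (A0 k)).1| ≤ Cr * √K / m ∧
    |(mz W a (A0 k)).2| ≤ Cr * √K / m) →
  ∫ a in Box m, Zk D Λ Cv W k a (A0 k) ≤ 4 * (m : ℝ) ^ 2 * Real.exp (Ch * K) →
  ∀ (G G1 G2 : ℝ × ℝ → ℝ) (T : ℝ), Sm G G1 G2 T → T ≤ Real.exp K →
  Per m G → Per m G1 → Per m G2 →
  |∫ x in Box m, W x * G x| ≤ C * √K * ∫ x in Box m, th β₁ β₂ 16 (G1 x, G2 x)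

end Pool.UMD
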