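import Pool.Agent.H37.UMD.Stmts
import Pool.Agent.H85.UMC.Final

/-!
Ultimate matching, dual proof: the statements of the modules of the noise part and of the reduction.
-/

set_option autoImplicit false

open MeasureTheory ProbabilityTheory Finset

namespace Pool.UMD

/-! ### Definitions -/

/-- Folding of `ℤ` onto `{0, …, m-1}` (period `2m`, even around `-1/2`). -/
def fo (m : ℕ) (i : ℤ) : ℕ :=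
  if i % (2 * m) < m then (i % (2 * m)).toNat else (2 * m - 1 - i % (2 * m)).toNat

/-- The indicator of the folded cell `(i, j)`. -/
noncomputable def iq (m i j : ℕ) (x : ℝ × ℝ) : ℝ :=
  if fo m ⌊x.1⌋ = i ∧ fo m ⌊x.2⌋ = j then 1 else 0

/-- The folded step function with the values `w i j / √K`. -/
noncomputable def Wf (m : ℕ) (K : ℝ) (w : ℕ → ℕ → ℝ) (x : ℝ × ℝ) : ℝ :=
  w (fo m ⌊x.1⌋) (fo m ⌊x.2⌋) / √K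

/-- Difference of the counts. -/
def wc {n m : ℕ} (cx cy : Fin n → Fin m × Fin m) (i j : ℕ) : ℝ :=
  (Pool.UMC.cnt cx i j : ℝ) - Pool.UMC.cnt cy i j

/-- Pairing of grid functions on the `m × m` grid. -/
def pr (m : ℕ) (w f : ℕ → ℕ → ℝ) : ℝ := ∑ i ∈ range m, ∑ j ∈ range m, w i j * f i j

/-- Average over all pairs of `n`-tuples of cells. -/
noncomputable def av (n m : ℕ)
    (Φ : (Fin n → Fin m × Fin m) → (Fin n → Fin m × Fin m) → ℝ) : ℝ :=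
  (∑ cx, ∑ cy, Φ cx cy) / ((m : ℝ) ^ 2) ^ (2 * n)

/-- `ψ_β(s) = |s| (1 + log (1 + s²))^β`. -/
noncomputable def psi (β s : ℝ) : ℝ := |s| * (1 + Real.log (1 + s ^ 2)) ^ β

/-- Sum over the horizontal edges. -/
noncomputable def Ed1 (m : ℕ) (F : ℕ → ℕ → ℝ) (ψ : ℝ → ℝ) : ℝ :=
  ∑ i ∈ range (m - 1), ∑ j ∈ range m, ψ (F (i + 1) j - F i j)

/-- Sum over the vertical edges. -/
noncomputable def Ed2 (m : ℕ) (F : ℕ → ℕ → ℝ) (ψ : ℝ → ℝ) : ℝ :=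
  ∑ i ∈ range m, ∑ j ∈ range (m - 1), ψ (F i (j + 1) - F i j)

/-! ### Noise -/

/-- FOL: folding. -/
def SFol : Prop := ∀ m : ℕ, 1 ≤ m →
  (∀ i, fo m i < m) ∧ (∀ i, fo m (i + 2 * m) = fo m i) ∧
  (∀ h : ℕ → ℕ → ℝ, Measurable (fun x : ℝ × ℝ => h (fo m ⌊x.1⌋) (fo m ⌊x.2⌋)) ∧
    Per m (fun x : ℝ × ℝ => h (fo m ⌊x.1⌋) (fo m ⌊x.2⌋)) ∧
    ∫ x in Box m, h (fo m ⌊x.1⌋) (fo m ⌊x.2⌋) =
      4 * ∑ i ∈ range m, ∑ j ∈ range m, h i j)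

/-- MAS: mass of a folded unit cell. -/
def SMas : Prop := ∃ C : ℝ, 1 ≤ C ∧ ∀ (m i j : ℕ) (A : Mat) (a : ℝ × ℝ), 1 ≤ m → 0 < A.det →
  (∀ z, nm (A.ap z) ≤ 4 * m * nm z) → mu (iq m i j) a A ≤ C / A.det

/-- KER: bounds of the kernels of the three noise functionals. -/
def SKer : Prop := ∃ C : ℝ, 1 ≤ C ∧ ∀ (m : ℕ) (A : Mat) (a e : ℝ × ℝ) (g : ℝ), 1 ≤ m →
  0 < A.det → (∀ z, nm (A.ap z) ≤ 2 * m * nm z) → e.1 ^ 2 + e.2 ^ 2 = 1 →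
  (∀ i j, |xi0 (iq m i j) a A e g| ≤ C / √A.det ∧ |xi1 (iq m i j) a A e g| ≤ C / √A.det ∧
    |xi2 (iq m i j) a A e g| ≤ C / √A.det) ∧
  ∑ i ∈ range m, ∑ j ∈ range m, |xi0 (iq m i j) a A e g| ≤ C * √A.det ∧
  ∑ i ∈ range m, ∑ j ∈ range m, |xi1 (iq m i j) a A e g| ≤ C * √A.det ∧
  ∑ i ∈ range m, ∑ j ∈ range m, |xi2 (iq m i j) a A e g| ≤ C * √A.det

/-- MZB: the first moments of a folded cell. -/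
def SMzb : Prop := ∃ C : ℝ, 1 ≤ C ∧ ∀ (m : ℕ) (A : Mat) (a : ℝ × ℝ), 1 ≤ m → 0 < A.det →
  (∀ z, nm (A.ap z) ≤ 2 * m * nm z) →
  (∀ i j, 0 ≤ mu (iq m i j) a A ∧ mu (iq m i j) a A ≤ C / A.det ∧
    |(mz (iq m i j) a A).1| ≤ C / A.det ∧ |(mz (iq m i j) a A).2| ≤ C / A.det) ∧
  ∑ i ∈ range m, ∑ j ∈ range m, mu (iq m i j) a A ≤ 1 ∧
  ∑ i ∈ range m, ∑ j ∈ range m, |(mz (iq m i j) a A).1| ≤ 1 ∧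
  ∑ i ∈ range m, ∑ j ∈ range m, |(mz (iq m i j) a A).2| ≤ 1

/-- LIN: linearity in the values of the step function. -/
def SLin : Prop := ∀ (m : ℕ) (K : ℝ) (w : ℕ → ℕ → ℝ) (A : Mat) (a : ℝ × ℝ), 1 ≤ m →
  mu (Wf m K w) a A = pr m w (fun i j => mu (iq m i j) a A) / √K ∧
  (mz (Wf m K w) a A).1 = pr m w (fun i j => (mz (iq m i j) a A).1) / √K ∧
  (mz (Wf m K w) a A).2 = pr m w (fun i j => (mz (iq m i j) a A).2) / √K ∧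
  ∀ (e : ℝ × ℝ) (g : ℝ),
    xi0 (Wf m K w) a A e g = pr m w (fun i j => xi0 (iq m i j) a A e g) / √K ∧
    xi1 (Wf m K w) a A e g = pr m w (fun i j => xi1 (iq m i j) a A e g) / √K ∧
    xi2 (Wf m K w) a A e g = pr m w (fun i j => xi2 (iq m i j) a A e g) / √K

/-- EXP: the exponential moment. -/
def SExp : Prop := ∀ (n m : ℕ) (K : ℝ), 1 ≤ m → K = n / (m : ℝ) ^ 2 → 0 < K →
  ∀ f : ℕ → ℕ → ℝ, (∀ i j, |f i j| ≤ √K) →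
  av n m (fun cx cy => Real.exp (pr m (wc cx cy) f / √K)) ≤ Real.exp (2 * pr m f f)

/-- NO1: one step of the noise induction, abstract form. -/
def SNo1 : Prop := ∀ (n m : ℕ) (K Cκ : ℝ) (Λ k : ℕ), 1 ≤ m → 0 < K → 1 ≤ Cκ →
  15 * Cκ * Λ ≤ √K →
  ∀ (B : (Fin n → Fin m × Fin m) → (Fin n → Fin m × Fin m) → ℝ) (M : ℝ),
  (∀ cx cy, 0 ≤ B cx cy) → 0 ≤ M →
  (∀ (F : ℕ → ℕ → ℝ) (H : ℝ), 0 ≤ H → H ≤ √K → (∀ i j, |F i j| ≤ H / √(2 ^ k)) →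
    av n m (fun cx cy => Real.exp (pr m (wc cx cy) F / √K) * B cx cy) ≤
      M * Real.exp (2 * pr m F F + 4 * H ^ 2)) →
  ∀ f : Fin 6 → ℕ → ℕ → ℝ, (∀ r i j, |f r i j| ≤ Cκ / √(2 ^ (k + 1))) →
  (∀ r, ∑ i ∈ range m, ∑ j ∈ range m, |f r i j| ≤ Cκ * √(2 ^ (k + 1))) →
  ∀ (F : ℕ → ℕ → ℝ) (H : ℝ), 0 ≤ H → H ≤ √K → (∀ i j, |F i j| ≤ H / √(2 ^ (k + 1))) →
    av n m (fun cx cy => Real.exp (pr m (wc cx cy) F / √K) *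
      (∏ r, ZZ Λ (72 * Cκ ^ 2 + 1) (pr m (wc cx cy) (f r) / √K)) * B cx cy) ≤
      729 * M * Real.exp (2 * pr m F F + 4 * H ^ 2)

/-- EZK: the mean of the partition function. -/
def SEzk : Prop := ∃ Cκ : ℝ, 1 ≤ Cκ ∧ ∀ D : Finset (ℝ × ℝ), D.Nonempty →
  (∀ e ∈ D, e.1 ^ 2 + e.2 ^ 2 = 1) → ∀ (n m : ℕ) (K : ℝ) (Λ k : ℕ) (a : ℝ × ℝ) (A : Mat),
  1 ≤ m → K = n / (m : ℝ) ^ 2 → 0 < K → 15 * Cκ * Λ ≤ √K → A.det = 2 ^ k →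
  (∀ z, nm (A.ap z) ≤ 2 * m * nm z) →
  av n m (fun cx cy => Zk D Λ (72 * Cκ ^ 2 + 1) (Wf m K (wc cx cy)) k a A) ≤
    (729 * (D.card : ℝ)) ^ k

/-- LIP: cell means depend on the centre in a Lipschitz way. -/
def SLip : Prop := ∃ C : ℝ, 0 < C ∧ ∀ (W : ℝ × ℝ → ℝ) (M : ℝ), Bd W M → ∀ (s : ℝ) (a b : ℝ × ℝ),
  1 ≤ s → |a.1 - b.1| ≤ 1 → |a.2 - b.2| ≤ 1 →
  |mu W a ⟨s, 0, 0, s⟩ - mu W b ⟨s, 0, 0, s⟩| ≤ C * M / s ∧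
  |(mz W a ⟨s, 0, 0, s⟩).1 - (mz W b ⟨s, 0, 0, s⟩).1| ≤ C * M / s ∧
  |(mz W a ⟨s, 0, 0, s⟩).2 - (mz W b ⟨s, 0, 0, s⟩).2| ≤ C * M / s

/-- SUP: crude bound of the counts. -/
def SSup : Prop := ∀ (n k : ℕ) (K : ℝ), K = n / (4 : ℝ) ^ k → 1 ≤ K →
  Pool.UMC.frac n (2 ^ k) (fun cx cy => ¬ ∀ i j, |wc cx cy i j| ≤ K) ≤
    2 * (4 : ℝ) ^ k * Real.exp (-(K / 8))

/-- ROO: bounds at the root of the tree. -/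
def SRoo : Prop := ∃ Cr : ℝ, 0 < Cr ∧ ∀ (n k : ℕ) (K : ℝ), K = n / (4 : ℝ) ^ k → 1 ≤ K →
  Pool.UMC.frac n (2 ^ k) (fun cx cy => (∀ i j, |wc cx cy i j| ≤ K) ∧ ¬ ∀ a : ℝ × ℝ,
      |mu (Wf (2 ^ k) K (wc cx cy)) a (A0 (2 * k))| ≤ Cr * √K / 2 ^ k ∧
      |(mz (Wf (2 ^ k) K (wc cx cy)) a (A0 (2 * k))).1| ≤ Cr * √K / 2 ^ k ∧
      |(mz (Wf (2 ^ k) K (wc cx cy)) a (A0 (2 * k))).2| ≤ Cr * √K / 2 ^ k) ≤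
    100 * (4 : ℝ) ^ k * Real.exp (-K)

/-- MRK: Markov's inequality for the integral of the partition function. -/
def SMrk : Prop := ∀ D : Finset (ℝ × ℝ), D.Nonempty → (∀ e ∈ D, e.1 ^ 2 + e.2 ^ 2 = 1) →
  ∃ Cκ Ch : ℝ, 1 ≤ Cκ ∧ 0 < Ch ∧ ∀ (n k : ℕ) (K : ℝ) (Λ : ℕ), K = n / (4 : ℝ) ^ k → 1 ≤ K →
  15 * Cκ * Λ ≤ √K → (2 * k : ℝ) ≤ K →
  Pool.UMC.frac n (2 ^ k) (fun cx cy => ¬ ∫ a in Box (2 ^ k),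
      Zk D Λ (72 * Cκ ^ 2 + 1) (Wf (2 ^ k) K (wc cx cy)) (2 * k) a (A0 (2 * k)) ≤
        4 * ((2 ^ k : ℕ) : ℝ) ^ 2 * Real.exp (Ch * K)) ≤ Real.exp (-K)

/-- The good event. -/
def Gd (D : Finset (ℝ × ℝ)) (Λ : ℕ) (Cv Ch Cr : ℝ) (k : ℕ) (K : ℝ) (w : ℕ → ℕ → ℝ) : Prop :=
  (∀ i j, |w i j| ≤ K) ∧
  (∀ a : ℝ × ℝ, |mu (Wf (2 ^ k) K w) a (A0 (2 * k))| ≤ Cr * √K / 2 ^ k ∧
      |(mz (Wf (2 ^ k) K w) a (A0 (2 * k))).1| ≤ Cr * √K / 2 ^ k ∧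
      |(mz (Wf (2 ^ k) K w) a (A0 (2 * k))).2| ≤ Cr * √K / 2 ^ k) ∧
  ∫ a in Box (2 ^ k), Zk D Λ Cv (Wf (2 ^ k) K w) (2 * k) a (A0 (2 * k)) ≤
    4 * ((2 ^ k : ℕ) : ℝ) ^ 2 * Real.exp (Ch * K)

/-- GDE: the good event has large probability. -/
def SGde : Prop := ∀ D : Finset (ℝ × ℝ), D.Nonempty → (∀ e ∈ D, e.1 ^ 2 + e.2 ^ 2 = 1) →
  ∃ Cv c Ch Cr : ℝ, 1 ≤ Cv ∧ 0 < c ∧ ∀ p : ℕ, ∃ c₁ : ℝ, 0 < c₁ ∧ ∀ (n k : ℕ) (K : ℝ), 2 ≤ n →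
  K = n / (4 : ℝ) ^ k → c₁ * Real.log n ≤ K → ∃ Λ : ℕ, c * √K ≤ Λ ∧
  Pool.UMC.frac n (2 ^ k) (fun cx cy => ¬ Gd D Λ Cv Ch Cr k K (wc cx cy)) ≤ 1 / (n : ℝ) ^ p

/-! ### From smooth functions to grid functions -/

/-- THT: `θ_16` is bounded by a separable function. -/
def STht : Prop := ∀ β₁ β₂ : ℝ, 0 < β₁ → 0 < β₂ → β₁ + β₂ = 1 / 2 → ∃ C : ℝ, 0 < C ∧
  ∀ v : ℝ × ℝ, th β₁ β₂ 16 v ≤ C * (1 + psi β₁ v.1 + psi β₂ v.2)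

/-- PSI: properties of `ψ_β`. -/
def SPsi : Prop := ∀ β : ℝ, 0 < β → β ≤ 1 / 2 →
  (∀ s, |s| ≤ psi β s) ∧ (∀ s t, |s| ≤ |t| → psi β s ≤ psi β t) ∧
  (∀ s, psi β (3 / 2 * s) ≤ 3 * psi β s) ∧ (∀ s lam, 0 ≤ lam → lam ≤ 1 →
    psi β (lam * s) ≤ lam * psi β s)

/-- The smooth step. -/
noncomputable def sst (s : ℝ) : ℝ := 3 * s ^ 2 - 2 * s ^ 3

/-- One-dimensional `C¹` interpolation of an integer sequence. -/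
noncomputable def ip (u : ℤ → ℝ) (t : ℝ) : ℝ := u ⌊t⌋ + (u (⌊t⌋ + 1) - u ⌊t⌋) * sst (Int.fract t)

/-- Its derivative. -/
noncomputable def ip' (u : ℤ → ℝ) (t : ℝ) : ℝ :=
  (u (⌊t⌋ + 1) - u ⌊t⌋) * (6 * Int.fract t * (1 - Int.fract t))

/-- Interpolation of the folded grid function. -/
noncomputable def GG (m : ℕ) (F : ℕ → ℕ → ℝ) (x : ℝ × ℝ) : ℝ :=
  ip (fun i => ip (fun j => F (fo m i) (fo m j)) (x.2 - 1 / 2)) (x.1 - 1 / 2)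

/-- Its first partial derivative. -/
noncomputable def GG1 (m : ℕ) (F : ℕ → ℕ → ℝ) (x : ℝ × ℝ) : ℝ :=
  ip' (fun i => ip (fun j => F (fo m i) (fo m j)) (x.2 - 1 / 2)) (x.1 - 1 / 2)

/-- Its second partial derivative. -/
noncomputable def GG2 (m : ℕ) (F : ℕ → ℕ → ℝ) (x : ℝ × ℝ) : ℝ :=
  ip (fun i => ip' (fun j => F (fo m i) (fo m j)) (x.2 - 1 / 2)) (x.1 - 1 / 2)

/-- GSM: the interpolation is smooth, periodic and bounded. -/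
def SGsm : Prop := ∀ (m : ℕ) (F : ℕ → ℕ → ℝ) (Δ : ℝ), 1 ≤ m → 0 ≤ Δ → F 0 0 = 0 →
  (∀ i j, i + 1 < m → j < m → |F (i + 1) j - F i j| ≤ Δ) →
  (∀ i j, i < m → j + 1 < m → |F i (j + 1) - F i j| ≤ Δ) →
  Sm (GG m F) (GG1 m F) (GG2 m F) (4 * m * Δ) ∧ Per m (GG m F) ∧ Per m (GG1 m F) ∧ Per m (GG2 m F)

/-- GDF: the interpolation is close to the step function. -/
def SGdf : Prop := ∃ C : ℝ, 0 < C ∧ ∀ (m : ℕ) (F w : ℕ → ℕ → ℝ) (M : ℝ), 1 ≤ m →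
  (∀ i j, |w i j| ≤ M) →
  |(∫ x in Box m, w (fo m ⌊x.1⌋) (fo m ⌊x.2⌋) * GG m F x) - 4 * pr m w F| ≤
    C * M * (Ed1 m F (fun s => |s|) + Ed2 m F (fun s => |s|))

/-- GTH: the energy of the interpolation. -/
def SGth : Prop := ∀ β₁ β₂ : ℝ, 0 < β₁ → 0 < β₂ → β₁ + β₂ = 1 / 2 → ∃ C : ℝ, 0 < C ∧
  ∀ (m : ℕ) (F : ℕ → ℕ → ℝ), 1 ≤ m →
  ∫ x in Box m, th β₁ β₂ 16 (GG1 m F x, GG2 m F x) ≤
    C * ((m : ℝ) ^ 2 + Ed1 m F (psi β₁) + Ed2 m F (psi β₂))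

/-- DGR: the dual inequality for grid functions, on the good event. -/
def SDgr : Prop := ∀ β₁ β₂ : ℝ, 0 < β₁ → 0 < β₂ → β₁ + β₂ = 1 / 2 →
  ∀ D : Finset (ℝ × ℝ), D.Nonempty → Net D → ∀ Cv c Ch Cr : ℝ, 1 ≤ Cv → 0 < c →
  ∃ C : ℝ, 0 < C ∧ ∀ (n k : ℕ) (K : ℝ) (Λ : ℕ), 2 ≤ n → K = n / (4 : ℝ) ^ k →
  10 * Real.log n ≤ K → 10 ≤ K → c * √K ≤ Λ →
  ∀ cx cy : Fin n → Fin (2 ^ k) × Fin (2 ^ k), Gd D Λ Cv Ch Cr k K (wc cx cy) →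
  ∀ F : ℕ → ℕ → ℝ, pr (2 ^ k) (wc cx cy) F ≤
    C * K * ((4 : ℝ) ^ k + Ed1 (2 ^ k) F (psi β₁) + Ed2 (2 ^ k) F (psi β₂))

/-- DUA: the dual inequality holds with large probability. -/
def SDua : Prop := ∀ β₁ β₂ : ℝ, 0 < β₁ → 0 < β₂ → β₁ + β₂ = 1 / 2 → ∀ p : ℕ,
  ∃ c₁ : ℝ, 0 < c₁ ∧ ∀ c₀ : ℝ, c₁ ≤ c₀ → ∃ C : ℝ, 0 < C ∧ ∀ n k : ℕ, 2 ≤ n →
  c₀ * Real.log n ≤ n / (4 : ℝ) ^ k → (n : ℝ) / (4 : ℝ) ^ k ≤ 4 * c₀ * Real.log n →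
  Pool.UMC.frac n (2 ^ k) (fun cx cy => ¬ ∀ F : ℕ → ℕ → ℝ, pr (2 ^ k) (wc cx cy) F ≤
    C * Real.log n * ((4 : ℝ) ^ k + Ed1 (2 ^ k) F (psi β₁) + Ed2 (2 ^ k) F (psi β₂))) ≤
    1 / (n : ℝ) ^ p

end Pool.UMD
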