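import Pool.Agent.H37.UMD.Norm

/-!
From the bound with high probability for the constant `C` on the right hand side to the normalised
bound and to the truncated expectation.
-/

set_option autoImplicit false

open MeasureTheory Finset

namespace Pool.UMD

open Pool.UMC (unifSq cost)

/-- `min_σ M_n(σ)`. -/
noncomputable def minCost (α₁ α₂ C : ℝ) (n : ℕ) (z : (Fin n → ℝ × ℝ) × (Fin n → ℝ × ℝ)) : ℝ :=
  Finset.univ.inf' Finset.univ_nonempty (fun σ => cost α₁ α₂ C n z.1 z.2 σ)

/-- The law of the `2n` points. -/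
noncomputable abbrev law (n : ℕ) : Measure ((Fin n → ℝ × ℝ) × (Fin n → ℝ × ℝ)) :=
  (Measure.pi fun _ : Fin n => unifSq).prod (Measure.pi fun _ : Fin n => unifSq)

instance Trunc_inst : IsProbabilityMeasure unifSq := by
  constructor
  unfold unifSq
  rw [Measure.restrict_apply MeasurableSet.univ, Set.univ_inter, Measure.volume_eq_prod,
    Measure.prod_prod]
  simp

theorem Trunc_meas_cost (α₁ α₂ C : ℝ) (n : ℕ) (σ : Equiv.Perm (Fin n)) :
    Measurable (fun z : (Fin n → ℝ × ℝ) × (Fin n → ℝ × ℝ) => cost α₁ α₂ C n z.1 z.2 σ) := by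
  unfold cost
  refine Measurable.max ?_ ?_
  · refine Finset.measurable_sum _ fun i _ => Real.measurable_exp.comp ?_
    refine Measurable.pow_const ?_ _
    refine measurable_const.mul ?_
    refine Measurable.abs ?_
    exact (measurable_fst.comp ((measurable_pi_apply i).comp measurable_fst)).sub
      (measurable_fst.comp ((measurable_pi_apply (σ i)).comp measurable_snd))
  · refine Finset.measurable_sum _ fun i _ => Real.measurable_exp.comp ?_
    refine Measurable.pow_const ?_ _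
    refine measurable_const.mul ?_
    refine Measurable.abs ?_
    exact (measurable_snd.comp ((measurable_pi_apply i).comp measurable_fst)).sub
      (measurable_snd.comp ((measurable_pi_apply (σ i)).comp measurable_snd))

theorem Trunc_meas (α₁ α₂ C : ℝ) (n : ℕ) : Measurable (minCost α₁ α₂ C n) := by
  have : minCost α₁ α₂ C n = Finset.univ.inf' Finset.univ_nonempty
      (fun σ z => cost α₁ α₂ C n z.1 z.2 σ) := by
    ext z
    simp [minCost, Finset.inf'_apply]
  rw [this]
  exact Finset.inf'_induction (p := Measurable) _ _ (fun _ h₁ _ h₂ => h₁.inf h₂)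
    fun σ _ => Trunc_meas_cost α₁ α₂ C n σ

theorem Trunc_nonneg (α₁ α₂ C : ℝ) (n : ℕ) (z) : 0 ≤ minCost α₁ α₂ C n z := by
  unfold minCost
  refine Finset.le_inf' _ _ fun σ _ => ?_
  unfold cost
  exact le_max_of_le_left (Finset.sum_nonneg fun i _ => (Real.exp_pos _).le)

theorem Trunc_iff (α₁ α₂ C : ℝ) (n : ℕ) (z) (b : ℝ) :
    (∃ σ : Equiv.Perm (Fin n), cost α₁ α₂ C n z.1 z.2 σ ≤ b) ↔ minCost α₁ α₂ C n z ≤ b := by
  unfold minCost
  rw [Finset.inf'_le_iff]
  simp

/-- The matching statement with constants. -/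
def MatchHP (α₁ α₂ : ℝ) : Prop := ∀ p : ℕ, ∃ C : ℝ, 0 < C ∧ ∀ n : ℕ, 2 ≤ n →
  law n {z | ¬ ∃ σ : Equiv.Perm (Fin n), cost α₁ α₂ C n z.1 z.2 σ ≤ C * n} ≤
    ENNReal.ofReal (1 / (n : ℝ) ^ p)

theorem Trunc_main {α₁ α₂ : ℝ} (hα₁ : 0 < α₁) (hα₂ : 0 < α₂) (h : MatchHP α₁ α₂) :
    ∀ ε : ℝ, 0 < ε → ∀ p : ℕ, ∃ C : ℝ, 0 < C ∧ ∀ n : ℕ, 2 ≤ n →
      law n {z | (1 + ε) * n < minCost α₁ α₂ C n z} ≤ ENNReal.ofReal (1 / (n : ℝ) ^ p) ∧
      ∫ z, min (minCost α₁ α₂ C n z) ((n : ℝ) ^ p) ∂(law n) ≤ (1 + ε) * n := by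
  intro ε hε p
  obtain ⟨r, hr⟩ : ∃ r : ℕ, (1 / 2 : ℝ) ^ r < ε / 2 :=
    exists_pow_lt_of_lt_one (by positivity) (by norm_num)
  obtain ⟨C, hC, hP⟩ := h (p + r)
  obtain ⟨C', hC', hN⟩ := Norm_form hα₁ hα₂ hC (show (0 : ℝ) < ε / 2 by positivity)
  refine ⟨C', hC', fun n hn => ?_⟩
  have hn' : (2 : ℝ) ≤ n := by exact_mod_cast hn
  have hn0 : (0 : ℝ) < n := by linarith
  have hsub : {z | (1 + ε / 2) * n < minCost α₁ α₂ C' n z} ⊆
      {z | ¬ ∃ σ : Equiv.Perm (Fin n), cost α₁ α₂ C n z.1 z.2 σ ≤ C * n} := by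
    intro z hz
    simp only [Set.mem_ofPred_eq] at hz ⊢
    rintro ⟨σ, hσ⟩
    have h1 := hN n hn z.1 z.2 σ hσ
    have h2 := (Trunc_iff α₁ α₂ C' n z _).1 ⟨σ, h1⟩
    linarith
  have hB : law n {z | (1 + ε / 2) * n < minCost α₁ α₂ C' n z} ≤
      ENNReal.ofReal (1 / (n : ℝ) ^ (p + r)) := (measure_mono hsub).trans (hP n hn)
  have hpow : (1 : ℝ) / (n : ℝ) ^ (p + r) ≤ 1 / (n : ℝ) ^ p := by
    refine one_div_le_one_div_of_le (by positivity) ?_
    exact pow_le_pow_right₀ (by linarith) (by omega)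
  refine ⟨?_, ?_⟩
  · refine (measure_mono ?_).trans (hB.trans (ENNReal.ofReal_le_ofReal hpow))
    intro z hz
    simp only [Set.mem_ofPred_eq] at hz ⊢
    nlinarith
  · set B := {z | (1 + ε / 2) * n < minCost α₁ α₂ C' n z} with hBdef
    have hBm : MeasurableSet B := measurableSet_lt measurable_const (Trunc_meas α₁ α₂ C' n)
    have hint : Integrable (fun z => min (minCost α₁ α₂ C' n z) ((n : ℝ) ^ p)) (law n) := by
      refine Integrable.of_bound
        ((Trunc_meas α₁ α₂ C' n).min measurable_const).aestronglyMeasurable ((n : ℝ) ^ p) ?_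
      refine Filter.Eventually.of_forall fun z => ?_
      rw [Real.norm_of_nonneg (le_min (Trunc_nonneg _ _ _ _ _) (by positivity))]
      exact min_le_right _ _
    have hint2 : Integrable (fun z => (1 + ε / 2) * n + B.indicator (fun _ => (n : ℝ) ^ p) z)
        (law n) := (integrable_const _).add ((integrable_const _).indicator hBm)
    calc ∫ z, min (minCost α₁ α₂ C' n z) ((n : ℝ) ^ p) ∂(law n)
        ≤ ∫ z, ((1 + ε / 2) * n + B.indicator (fun _ => (n : ℝ) ^ p) z) ∂(law n) := by
          refine integral_mono hint hint2 fun z => ?_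
          by_cases hz : z ∈ B
          · rw [Set.indicator_of_mem hz]
            have : min (minCost α₁ α₂ C' n z) ((n : ℝ) ^ p) ≤ (n : ℝ) ^ p := min_le_right _ _
            have h3 : 0 ≤ (1 + ε / 2) * n := by positivity
            linarith
          · rw [Set.indicator_of_notMem hz]
            have h4 : minCost α₁ α₂ C' n z ≤ (1 + ε / 2) * n := not_lt.1 hz
            have := min_le_left (minCost α₁ α₂ C' n z) ((n : ℝ) ^ p)
            linarith
      _ = (1 + ε / 2) * n + (law n).real B * (n : ℝ) ^ p := by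
          rw [integral_add (integrable_const _) ((integrable_const _).indicator hBm),
            integral_indicator hBm, setIntegral_const, integral_const]
          simp
      _ ≤ (1 + ε / 2) * n + (1 / (n : ℝ) ^ (p + r)) * (n : ℝ) ^ p := by
          have h5 : (law n).real B ≤ 1 / (n : ℝ) ^ (p + r) := by
            unfold Measure.real
            exact ENNReal.toReal_le_of_le_ofReal (by positivity) hB
          have h6 : (0 : ℝ) ≤ (n : ℝ) ^ p := by positivity
          nlinarith
      _ = (1 + ε / 2) * n + (1 / (n : ℝ)) ^ r := by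
          rw [pow_add, one_div_pow]
          field_simp
      _ ≤ (1 + ε / 2) * n + (1 / 2 : ℝ) ^ r := by
          have : (1 / (n : ℝ)) ^ r ≤ (1 / 2 : ℝ) ^ r :=
            pow_le_pow_left₀ (by positivity) (one_div_le_one_div_of_le (by norm_num) hn') r
          linarith
      _ ≤ (1 + ε) * n := by nlinarith

end Pool.UMD
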